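import Pool.Agent.H68.QT.Targets
import Pool.Agent.H75.QC.QST

/-!
# TWL: all algorithms at the bottom become trees
-/

set_option autoImplicit false

namespace Pool.Agent.H3.QT

open Finset Pool.Agent.H6.NB Pool.Agent.H70.OQ Pool.Agent.H70.RK Pool.Agent.H68.QC
  Pool.Agent.H68.QT Pool.Agent.H75.QC

/-- TWL. -/
theorem pf_TWL (hLMQ : T_LMQ) : T_TWL := by
  intro V _ _ m j t D T q V1 V0 hT ht hD h0 hq hc hF
  have hlw : ∀ l : V → Bool, 0 ≤ lw q l := Pool.Agent.H62.OQ.lw_nonneg q h0.le (by linarith)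
  induction j generalizing V1 V0 with
  | zero =>
    obtain ⟨A, tr, hS, hAT, htr, hV1, hV0⟩ := hF
    have h2 : ∑ l : V → Bool, lw q l * ic (¬ ∃ R, R.depth ≤ D ∧ GTree A tr l R) ≤ 4 / 2 ^ D := by
      refine hLMQ V A tr t D q htr ht hD h0 hq (le_trans ?_ hc)
      have h4 : (0 : ℝ) ≤ A.T := by positivity
      have h5 : (A.T + 1 : ℝ) ^ 2 ≤ (T + 1) ^ 2 := pow_le_pow_left₀ (by linarith) (by linarith) 2
      have h6 : 0 ≤ 2 * 10 ^ 4 * q := by positivity
      exact mul_le_mul_of_nonneg_right (mul_le_mul_of_nonneg_right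
        (mul_le_mul_of_nonneg_left h5 h6) (by positivity)) (by positivity)
    have h3 : (4 : ℝ) / 2 ^ D = eL m 0 D := by
      unfold eL
      rw [Nat.mul_zero, pow_zero, one_mul]
    rw [← h3]
    refine le_trans (sum_le_sum fun l _ => mul_le_mul_of_nonneg_left ?_ (hlw l)) h2
    by_cases hR : ∃ R, R.depth ≤ D ∧ GTree A tr l R
    · obtain ⟨R, hR1, hR2⟩ := hR
      have hred : RedL (TwD V m T t D 0) V1 V0 l := by
        refine ⟨fun y => R.eval y = true, fun y => R.eval y = false,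
          ⟨R, hR1, fun _ => Iff.rfl, fun _ => Iff.rfl⟩, fun y hy => ⟨fun h1 => ?_, fun h1 => ?_⟩⟩
        · exact (hR2 y hy).1 ((hV1 y).1 h1)
        · exact (hR2 y hy).2 ((hV0 y).1 h1)
      rw [ic_zero (not_not.2 hred)]
      exact ic_nonneg _
    · rw [ic_one hR]
      unfold ic
      split_ifs <;> norm_num
  | succ j ih =>
    obtain ⟨A, tr, P1, P0, hS, hAT, htr, hP, hV1, hV0⟩ := hF
    have hex : ∀ w : List Bool, ∃ Q1 Q0 : List Bool → (V → Bool) → Prop, w.length ≤ m →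
        (∀ v, v.length ≤ m → TwC V m T t j (Q1 v) (Q0 v)) ∧
        (∀ y, P1 w y ↔ ∃ v : List Bool, v.length ≤ m ∧ Q1 v y) ∧
        ∀ y, P0 w y ↔ ∀ v : List Bool, v.length ≤ m → Q0 v y := by
      intro w
      by_cases hw : w.length ≤ m
      · obtain ⟨Q1, Q0, h1, h2, h3⟩ := hP w hw
        exact ⟨Q1, Q0, fun _ => ⟨h1, h2, h3⟩⟩
      · exact ⟨fun _ _ => True, fun _ _ => True, fun h => absurd h hw⟩
    choose Q1 Q0 hQ using hex
    obtain ⟨W, hWc, hWm⟩ := words m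
    have hone : ∀ p ∈ W ×ˢ W, ∑ l : V → Bool, lw q l *
        ic (¬ RedL (TwD V m T t D j) (Q1 p.1 p.2) (Q0 p.1 p.2) l) ≤ eL m j D := by
      intro p hp
      rw [mem_product] at hp
      exact ih _ _ ((hQ p.1 ((hWm _).2 hp.1)).1 p.2 ((hWm _).2 hp.2))
    have hpt : ∀ l : V → Bool, ic (¬ RedL (TwD V m T t D (j + 1)) V1 V0 l) ≤
        ∑ p ∈ W ×ˢ W, ic (¬ RedL (TwD V m T t D j) (Q1 p.1 p.2) (Q0 p.1 p.2) l) := by
      intro l
      refine ic_union (W ×ˢ W) _
        (fun p => RedL (TwD V m T t D j) (Q1 p.1 p.2) (Q0 p.1 p.2) l) fun hneg => ?_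
      by_contra hcon
      push Not at hcon
      refine hneg ?_
      have hex2 : ∀ w v : List Bool, ∃ R1 R0 : (V → Bool) → Prop, w.length ≤ m → v.length ≤ m →
          TwD V m T t D j R1 R0 ∧ ∀ y : V → Bool, (∀ v, l v = false → y v = true) →
            (Q1 w v y → R1 y) ∧ (Q0 w v y → R0 y) := by
        intro w v
        by_cases hw : w.length ≤ m ∧ v.length ≤ m
        · obtain ⟨R1, R0, h1, h2⟩ := hcon (w, v)
            (mem_product.2 ⟨(hWm w).1 hw.1, (hWm v).1 hw.2⟩)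
          exact ⟨R1, R0, fun _ _ => ⟨h1, h2⟩⟩
        · exact ⟨fun _ => True, fun _ => True, fun h h' => absurd ⟨h, h'⟩ hw⟩
      choose R1 R0 hR using hex2
      refine ⟨fun y => ∀ g, Cmp m tr (fun w y => ∃ v : List Bool, v.length ≤ m ∧ R1 w v y)
          (fun w y => ∀ v : List Bool, v.length ≤ m → R0 w v y) y g → 2 / 3 ≤ A.prob g,
        fun y => ∀ g, Cmp m tr (fun w y => ∃ v : List Bool, v.length ≤ m ∧ R1 w v y)
          (fun w y => ∀ v : List Bool, v.length ≤ m → R0 w v y) y g → A.prob g ≤ 1 / 3,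
        ⟨A, tr, _, _, hS, hAT, htr, fun w hw => ⟨R1 w, R0 w, fun v hv => (hR w v hw hv).1,
          fun _ => Iff.rfl, fun _ => Iff.rfl⟩, fun _ => Iff.rfl, fun _ => Iff.rfl⟩,
        fun y hy => ?_⟩
      have hC : ∀ g, Cmp m tr (fun w y => ∃ v : List Bool, v.length ≤ m ∧ R1 w v y)
          (fun w y => ∀ v : List Bool, v.length ≤ m → R0 w v y) y g → Cmp m tr P1 P0 y g := by
        intro g hg w hw
        obtain ⟨h1, h2, h3⟩ := hg w hw
        refine ⟨h1, fun h4 => h2 ?_, fun h4 => h3 ?_⟩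
        · obtain ⟨v, hv, h5⟩ := ((hQ w hw).2.1 y).1 h4
          exact ⟨v, hv, ((hR w v hw hv).2 y hy).1 h5⟩
        · intro v hv
          exact ((hR w v hw hv).2 y hy).2 (((hQ w hw).2.2 y).1 h4 v hv)
      exact ⟨fun h1 g hg => (hV1 y).1 h1 g (hC g hg), fun h1 g hg => (hV0 y).1 h1 g (hC g hg)⟩
    calc ∑ l : V → Bool, lw q l * ic (¬ RedL (TwD V m T t D (j + 1)) V1 V0 l)
        ≤ ∑ l : V → Bool, lw q l * ∑ p ∈ W ×ˢ W,
            ic (¬ RedL (TwD V m T t D j) (Q1 p.1 p.2) (Q0 p.1 p.2) l) :=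
          sum_le_sum fun l _ => mul_le_mul_of_nonneg_left (hpt l) (hlw l)
      _ = ∑ p ∈ W ×ˢ W, ∑ l : V → Bool, lw q l *
            ic (¬ RedL (TwD V m T t D j) (Q1 p.1 p.2) (Q0 p.1 p.2) l) := by
          rw [sum_comm]
          exact sum_congr rfl fun l _ => mul_sum _ _ _
      _ ≤ ∑ p ∈ W ×ˢ W, eL m j D := sum_le_sum hone
      _ = (W ×ˢ W).card * eL m j D := by rw [sum_const, nsmul_eq_mul]
      _ ≤ eL m (j + 1) D := by
          have h1 : (W ×ˢ W).card ≤ 2 ^ (2 * (m + 1)) := by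
            rw [card_product, two_mul, pow_add]
            exact Nat.mul_le_mul hWc hWc
          have h2 : ((W ×ˢ W).card : ℝ) ≤ 2 ^ (2 * (m + 1)) := by exact_mod_cast h1
          have h3 : eL m (j + 1) D = 2 ^ (2 * (m + 1)) * eL m j D := by
            unfold eL
            rw [Nat.mul_succ, pow_add]
            ring
          rw [h3]
          refine mul_le_mul_of_nonneg_right h2 ?_
          unfold eL
          positivity

end Pool.Agent.H3.QT
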