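import Pool.Agent.H68.QT.Targets
import Pool.Agent.H75.QC.RDF
import Pool.Agent.H75.QC.QST

/-!
# TWR: the lowest disjunctions become trees
-/

set_option autoImplicit false

namespace Pool.Agent.H3.QT

open Finset Pool.Agent.H6.NB Pool.Agent.H70.OQ Pool.Agent.H70.RK Pool.Agent.H68.QC
  Pool.Agent.H68.QT Pool.Agent.H75.QC

/-- Restriction of a tree to the tables with the hidden children `h`. -/
theorem glu_tree {A Z : Type} [DecidableEq Z] (h : A → Z) (R : Pool.Agent.H68.AC.DT (A × Z)) :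
    ∃ R' : Pool.Agent.H68.AC.DT A, R'.depth ≤ R.depth ∧
      ∀ s : A → Bool, R'.eval s = R.eval (glu h s) := by
  induction R with
  | leaf b => exact ⟨.leaf b, le_rfl, fun _ => rfl⟩
  | node v l r ihl ihr =>
    obtain ⟨l', hl1, hl2⟩ := ihl
    obtain ⟨r', hr1, hr2⟩ := ihr
    by_cases hv : v.2 = h v.1
    · refine ⟨.node v.1 r' l', ?_, fun s => ?_⟩
      · change max r'.depth l'.depth + 1 ≤ max l.depth r.depth + 1
        omega
      · have h1 : glu h s v = !(s v.1) := by
          unfold glu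
          rw [decide_eq_true hv, Bool.and_true]
        unfold Pool.Agent.H68.AC.DT.eval
        rw [h1, hl2, hr2]
        cases s v.1 <;> rfl
    · refine ⟨r', ?_, fun s => ?_⟩
      · change r'.depth ≤ max l.depth r.depth + 1
        omega
      · have h1 : glu h s v = true := by
          unfold glu
          rw [decide_eq_false hv, Bool.and_false]
          rfl
        rw [Pool.Agent.H68.AC.DT.eval, h1, hr2]
        rfl

/-- TWR. -/
theorem pf_TWR : T_TWR := by
  intro A Z _ _ _ _ m j t D w T q L V1 V0 hD htw hDw hq0 hq hL hF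
  have hw : 1 ≤ w := hD.trans hDw
  have hwr : (1 : ℝ) ≤ w := by exact_mod_cast hw
  have hq1 : q ≤ 1 := by nlinarith
  induction j generalizing V1 V0 with
  | zero =>
    obtain ⟨B, tr, P1, P0, hS, hBT, htr, hP, hV1, hV0⟩ := hF
    obtain ⟨W, hWc, hWm⟩ := words m
    have hex : ∀ u : List Bool, ∃ R : List Bool → Pool.Agent.H68.AC.DT (A × Z), u.length ≤ m →
        (∀ v, v.length ≤ m → (R v).depth ≤ D) ∧
        (∀ y, P1 u y → ∃ v ∈ W, (R v).eval y = true) ∧
        ∀ y, P0 u y → ∀ v ∈ W, (R v).eval y = false := by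
      intro u
      by_cases hu : u.length ≤ m
      · obtain ⟨Q1, Q0, h1, h2, h3⟩ := hP u hu
        have hex1 : ∀ v : List Bool, ∃ R : Pool.Agent.H68.AC.DT (A × Z), v.length ≤ m →
            R.depth ≤ D ∧ (∀ y, Q1 v y ↔ R.eval y = true) ∧ ∀ y, Q0 v y ↔ R.eval y = false := by
          intro v
          by_cases hv : v.length ≤ m
          · obtain ⟨R, hR⟩ := h1 v hv
            exact ⟨R, fun _ => hR⟩
          · exact ⟨.leaf false, fun h => absurd h hv⟩
        choose R hR using hex1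
        refine ⟨R, fun _ => ⟨fun v hv => (hR v hv).1, fun y hy => ?_, fun y hy v hv => ?_⟩⟩
        · obtain ⟨v, hv, hvy⟩ := (h2 y).1 hy
          exact ⟨v, (hWm v).1 hv, ((hR v hv).2.1 y).1 hvy⟩
        · have hv' := (hWm v).2 hv
          exact ((hR v hv').2.2 y).1 ((h3 y).1 hy v hv')
      · exact ⟨fun _ => .leaf false, fun h => absurd h hu⟩
    choose R hR using hex
    have hfin : ∀ u : List Bool, ∃ f : (A × Z → Bool) → Bool,
        ∀ y, f y = true ↔ ∃ v ∈ W, (R u v).eval y = true := by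
      classical
      exact fun u => ⟨fun y => decide (∃ v ∈ W, (R u v).eval y = true), fun y =>
        decide_eq_true_iff⟩
    choose f hf using hfin
    have hone : ∀ u ∈ W.toList, pr q L (fun h l => ¬ Red (2 ^ (m + 1)) w 0 (f u) h l) ≤
        5 / 2 ^ (w + 1) := by
      intro u hu
      have hu' : u.length ≤ m := (hWm u).2 (mem_toList.1 hu)
      have hFm : Fm (2 ^ (m + 1)) w 1 (f u) := by
        refine ⟨W.toList.length, fun i y => (R u (W.toList.get i)).eval y, fun _ => true, ?_,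
          fun i => ?_, fun y => ?_⟩
        · rw [length_toList]
          exact hWc
        · have hi : W.toList.get i ∈ W := mem_toList.1 (List.get_mem W.toList i)
          exact ⟨R u (W.toList.get i), ((hR u hu').1 _ ((hWm _).2 hi)).trans hDw, fun _ => rfl⟩
        · rw [hf]
          refine ⟨?_, ?_⟩
          · rintro ⟨v, hv, hvy⟩
            obtain ⟨i, rfl⟩ := List.mem_iff_get.1 (mem_toList.2 hv)
            exact ⟨i, hvy⟩
          · rintro ⟨i, hi⟩
            exact ⟨_, mem_toList.1 (List.get_mem W.toList i), hi⟩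
      have h2 := pf_RED A Z (2 ^ (m + 1)) w 0 q L (f u) hw hq0 hq hL hFm
      rw [pow_zero, one_mul] at h2
      exact h2
    have h2 := pr_list hq0.le hq1 L _ W.toList
      (fun u h l => ¬ Red (2 ^ (m + 1)) w 0 (f u) h l) hone
    rw [length_toList] at h2
    have h3 : (W.card : ℝ) * (5 / 2 ^ (w + 1)) ≤ eC m 0 w := by
      unfold eC
      refine mul_le_mul_of_nonneg_right ?_ (by positivity)
      have h4 : W.card ≤ 2 ^ (2 * (m + 1) * (0 + 1)) :=
        hWc.trans (Nat.pow_le_pow_right (by norm_num) (by omega))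
      exact_mod_cast h4
    refine le_trans (pr_mono hq0.le hq1 L (fun h l => ¬ RedC (TwC A m T w 0) V1 V0 h l) _
      fun h l hneg => ?_) (h2.trans h3)
    by_contra hcon
    push Not at hcon
    refine hneg ?_
    have hex2 : ∀ u : List Bool, ∃ R' : Pool.Agent.H68.AC.DT A, R'.depth ≤ w ∧ (u.length ≤ m →
        ∀ s : A → Bool, (∀ a, l a = false → s a = true) → R'.eval s = f u (glu h s)) := by
      intro u
      by_cases hu : u.length ≤ m
      · obtain ⟨f', ⟨R', h4, h5⟩, h6⟩ := hcon u (mem_toList.2 ((hWm u).1 hu))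
        exact ⟨R', h4, fun _ s hs => by rw [h5, h6 s hs]⟩
      · exact ⟨.leaf false, Nat.zero_le _, fun h' => absurd h' hu⟩
    choose R' hR'1 hR'2 using hex2
    choose G hG1 hG2 using fun u => glu_tree h (tr u)
    obtain ⟨tr', htr1, htr2, htr3⟩ : ∃ tr' : List Bool → Pool.Agent.H68.AC.DT A,
        (∀ u, (tr' u).depth ≤ w) ∧ (∀ u, tr' (false :: u) = G u) ∧ ∀ u, tr' (true :: u) = R' u := by
      refine ⟨fun u => match u with
        | [] => .leaf false
        | false :: u => G u
        | true :: u => R' u, fun u => ?_, fun _ => rfl, fun _ => rfl⟩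
      match u with
      | [] => exact Nat.zero_le _
      | false :: u => exact (hG1 u).trans ((htr u).trans htw)
      | true :: u => exact hR'1 u
    refine ⟨fun s => 2 / 3 ≤ B.prob fun u => (tr' u).eval s,
      fun s => (B.prob fun u => (tr' u).eval s) ≤ 1 / 3,
      ⟨B, tr', hS, hBT, htr1, fun _ => Iff.rfl, fun _ => Iff.rfl⟩, fun s hs => ?_⟩
    have hC : Cmp m tr P1 P0 (glu h s) fun u => (tr' u).eval s := by
      intro u hu
      refine ⟨?_, fun h7 => ?_, fun h7 => ?_⟩
      · change (tr' (false :: u)).eval s = _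
        rw [htr2, hG2]
      · change (tr' (true :: u)).eval s = true
        rw [htr3, hR'2 u hu s hs, hf]
        exact (hR u hu).2.1 _ h7
      · change (tr' (true :: u)).eval s = false
        rw [htr3, hR'2 u hu s hs, ← Bool.not_eq_true, hf]
        rintro ⟨v, hv, hvy⟩
        rw [(hR u hu).2.2 _ h7 v hv] at hvy
        exact absurd hvy (by decide)
    exact ⟨fun h8 => (hV1 _).1 h8 _ hC, fun h8 => (hV0 _).1 h8 _ hC⟩
  | succ j ih =>
    obtain ⟨B, tr, P1, P0, hS, hBT, htr, hP, hV1, hV0⟩ := hF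
    have hex : ∀ u : List Bool, ∃ Q1 Q0 : List Bool → (A × Z → Bool) → Prop, u.length ≤ m →
        (∀ v, v.length ≤ m → TwD (A × Z) m T t D (j + 1) (Q1 v) (Q0 v)) ∧
        (∀ y, P1 u y ↔ ∃ v : List Bool, v.length ≤ m ∧ Q1 v y) ∧
        ∀ y, P0 u y ↔ ∀ v : List Bool, v.length ≤ m → Q0 v y := by
      intro u
      by_cases hu : u.length ≤ m
      · obtain ⟨Q1, Q0, h1, h2, h3⟩ := hP u hu
        exact ⟨Q1, Q0, fun _ => ⟨h1, h2, h3⟩⟩
      · exact ⟨fun _ _ => True, fun _ _ => True, fun h => absurd h hu⟩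
    choose Q1 Q0 hQ using hex
    obtain ⟨W, hWc, hWm⟩ := words m
    have hone : ∀ p ∈ (W ×ˢ W).toList, pr q L (fun h l =>
        ¬ RedC (TwC A m T w j) (Q1 p.1 p.2) (Q0 p.1 p.2) h l) ≤ eC m j w := by
      intro p hp
      rw [mem_toList, mem_product] at hp
      exact ih _ _ ((hQ p.1 ((hWm _).2 hp.1)).1 p.2 ((hWm _).2 hp.2))
    have h2 := pr_list hq0.le hq1 L _ (W ×ˢ W).toList
      (fun p h l => ¬ RedC (TwC A m T w j) (Q1 p.1 p.2) (Q0 p.1 p.2) h l) hone
    rw [length_toList] at h2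
    have h3 : ((W ×ˢ W).card : ℝ) * eC m j w ≤ eC m (j + 1) w := by
      have h4 : (W ×ˢ W).card ≤ 2 ^ (2 * (m + 1)) := by
        rw [card_product, two_mul, pow_add]
        exact Nat.mul_le_mul hWc hWc
      have h5 : ((W ×ˢ W).card : ℝ) ≤ 2 ^ (2 * (m + 1)) := by exact_mod_cast h4
      have h6 : eC m (j + 1) w = 2 ^ (2 * (m + 1)) * eC m j w := by
        unfold eC
        rw [Nat.mul_succ, pow_add]
        ring
      rw [h6]
      refine mul_le_mul_of_nonneg_right h5 ?_
      unfold eC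
      positivity
    refine le_trans (pr_mono hq0.le hq1 L (fun h l => ¬ RedC (TwC A m T w (j + 1)) V1 V0 h l) _
      fun h l hneg => ?_) (h2.trans h3)
    by_contra hcon
    push Not at hcon
    refine hneg ?_
    have hex2 : ∀ u v : List Bool, ∃ R1 R0 : (A → Bool) → Prop, u.length ≤ m → v.length ≤ m →
        TwC A m T w j R1 R0 ∧ ∀ s : A → Bool, (∀ a, l a = false → s a = true) →
          (Q1 u v (glu h s) → R1 s) ∧ (Q0 u v (glu h s) → R0 s) := by
      intro u v
      by_cases hu : u.length ≤ m ∧ v.length ≤ m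
      · obtain ⟨R1, R0, h1, h2⟩ := hcon (u, v)
          (mem_toList.2 (mem_product.2 ⟨(hWm u).1 hu.1, (hWm v).1 hu.2⟩))
        exact ⟨R1, R0, fun _ _ => ⟨h1, h2⟩⟩
      · exact ⟨fun _ => True, fun _ => True, fun h h' => absurd ⟨h, h'⟩ hu⟩
    choose R1 R0 hR using hex2
    choose G hG1 hG2 using fun u => glu_tree h (tr u)
    refine ⟨fun s => ∀ g, Cmp m G (fun u s => ∃ v : List Bool, v.length ≤ m ∧ R1 u v s)
        (fun u s => ∀ v : List Bool, v.length ≤ m → R0 u v s) s g → 2 / 3 ≤ B.prob g,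
      fun s => ∀ g, Cmp m G (fun u s => ∃ v : List Bool, v.length ≤ m ∧ R1 u v s)
        (fun u s => ∀ v : List Bool, v.length ≤ m → R0 u v s) s g → B.prob g ≤ 1 / 3,
      ⟨B, G, _, _, hS, hBT, fun u => (hG1 u).trans ((htr u).trans htw), fun u hu =>
        ⟨R1 u, R0 u, fun v hv => (hR u v hu hv).1, fun _ => Iff.rfl, fun _ => Iff.rfl⟩,
        fun _ => Iff.rfl, fun _ => Iff.rfl⟩, fun s hs => ?_⟩
    have hC : ∀ g, Cmp m G (fun u s => ∃ v : List Bool, v.length ≤ m ∧ R1 u v s)
        (fun u s => ∀ v : List Bool, v.length ≤ m → R0 u v s) s g →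
        Cmp m tr P1 P0 (glu h s) g := by
      intro g hg u hu
      obtain ⟨h1, h2, h3⟩ := hg u hu
      refine ⟨by rw [h1, hG2], fun h4 => h2 ?_, fun h4 => h3 ?_⟩
      · obtain ⟨v, hv, h5⟩ := ((hQ u hu).2.1 _).1 h4
        exact ⟨v, hv, ((hR u v hu hv).2 s hs).1 h5⟩
      · intro v hv
        exact ((hR u v hu hv).2 s hs).2 (((hQ u hu).2.2 _).1 h4 v hv)
    exact ⟨fun h1 g hg => (hV1 _).1 h1 g (hC g hg), fun h1 g hg => (hV0 _).1 h1 g (hC g hg)⟩

end Pool.Agent.H3.QT
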